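import Pool.Agent.H95.RQ.Targets2

/-!
# Module VCT: cohomological triviality of the quotients `V_j / V_k`
-/

set_option autoImplicit false
set_option linter.unusedSectionVars false

open NumberField NumberField.InfinitePlace IsDedekindDomain

namespace Pool.Agent.H50.RQ

open Pool.Agent.H95.RQ

section

variable {F E : Type} [Field F] [NumberField F] [Field E] [NumberField E] [Algebra F E]

lemma us_iter (σ : E ≃ₐ[F] E) (x : Eˣ) (i : ℕ) : (((us σ)^[i] x : Eˣ) : E) = (σ ^ i) (x : E) := by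
  induction i with
  | zero => simp
  | succ i ih =>
    rw [Function.iterate_succ_apply', pow_succ', AlgEquiv.mul_apply, ← ih]
    rfl

lemma nm_coe (σ : E ≃ₐ[F] E) (n : ℕ) (x : Eˣ) :
    ((nm (us σ) n x : Eˣ) : E) = ∏ i ∈ Finset.range n, (σ ^ i) (x : E) := by
  show ((∏ i ∈ Finset.range n, (us σ)^[i] x : Eˣ) : E) = _
  rw [Units.coe_prod]
  exact Finset.prod_congr rfl fun i _ => us_iter σ x i

variable [IsGalois F E]

lemma repr_gal (g : E ≃ₐ[F] E) (x : E) (τ : E ≃ₐ[F] E) :
    (IsGalois.normalBasis F E).repr (g x) τ =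
      (IsGalois.normalBasis F E).repr x (g⁻¹ * τ) := by
  classical
  have h : ((IsGalois.normalBasis F E).coord τ).comp g.toLinearMap =
      (IsGalois.normalBasis F E).coord (g⁻¹ * τ) := by
    refine (IsGalois.normalBasis F E).ext fun ρ => ?_
    have h1 : g ((IsGalois.normalBasis F E) ρ) = (IsGalois.normalBasis F E) (g * ρ) := by
      rw [IsGalois.normalBasis_apply ρ, IsGalois.normalBasis_apply (g * ρ)]
      rfl
    show (IsGalois.normalBasis F E).repr (g ((IsGalois.normalBasis F E) ρ)) τ =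
      (IsGalois.normalBasis F E).repr ((IsGalois.normalBasis F E) ρ) (g⁻¹ * τ)
    rw [h1, Module.Basis.repr_self, Module.Basis.repr_self, Finsupp.single_apply,
      Finsupp.single_apply]
    by_cases h2 : g * ρ = τ
    · rw [if_pos h2, if_pos (by rw [← h2, inv_mul_cancel_left])]
    · rw [if_neg h2, if_neg (fun h3 => h2 (by rw [h3, mul_inv_cancel_left]))]
  exact LinearMap.congr_fun h x

variable {σ : E ≃ₐ[F] E} {n : ℕ}

/-- the exponents -/
lemma idx (hσ : ∀ g : E ≃ₐ[F] E, g ∈ Subgroup.zpowers σ) (hn : orderOf σ = n) :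
    ∃ i : (E ≃ₐ[F] E) → ℕ, (∀ τ, i τ < n ∧ σ ^ i τ = τ) ∧ ∀ τ k, k < n → σ ^ k = τ → i τ = k := by
  classical
  have h1 : ∀ τ : E ≃ₐ[F] E, ∃ i : ℕ, i < n ∧ σ ^ i = τ := by
    intro τ
    have h2 := (isOfFinOrder_of_finite σ).mem_zpowers_iff_mem_range_orderOf.1 (hσ τ)
    obtain ⟨i, hi, h3⟩ := Finset.mem_image.1 h2
    exact ⟨i, by rw [← hn]; exact Finset.mem_range.1 hi, h3⟩
  choose i hi using h1
  refine ⟨i, hi, fun τ k hk h => ?_⟩
  refine pow_injOn_Iio_orderOf (x := σ) ?_ ?_ ?_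
  · rw [hn]; exact (hi τ).1
  · rw [hn]; exact hk
  · show σ ^ i τ = σ ^ k
    rw [(hi τ).2, h]

lemma sum_pow (hσ : ∀ g : E ≃ₐ[F] E, g ∈ Subgroup.zpowers σ) (hn : orderOf σ = n)
    (f : (E ≃ₐ[F] E) → F) : ∑ i ∈ Finset.range n, f (σ ^ i) = ∑ τ, f τ := by
  obtain ⟨i, hi, hi'⟩ := idx hσ hn
  refine Finset.sum_bij' (fun k _ => σ ^ k) (fun τ _ => i τ) (fun _ _ => Finset.mem_univ _)
    (fun τ _ => Finset.mem_range.2 (hi τ).1) (fun k hk => ?_) (fun τ _ => (hi τ).2)
    (fun _ _ => rfl)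
  exact hi' _ k (Finset.mem_range.1 hk) rfl

/-- solution of the difference equation -/
lemma diff_eq (hσ : ∀ g : E ≃ₐ[F] E, g ∈ Subgroup.zpowers σ) (hn : orderOf σ = n) (hn0 : 0 < n)
    (a : (E ≃ₐ[F] E) → F) : ∃ b : (E ≃ₐ[F] E) → F,
      (∀ τ, ∃ (m : ℕ) (l : ℕ → (E ≃ₐ[F] E)), b τ = -∑ k ∈ Finset.range m, a (l k)) ∧
      (∀ τ, τ ≠ 1 → b τ - b (σ⁻¹ * τ) = -a τ) ∧
      b 1 - b (σ⁻¹ * 1) = (∑ τ, a τ) - a 1 := by
  obtain ⟨i, hi, hi'⟩ := idx hσ hn
  refine ⟨fun τ => -∑ k ∈ Finset.range (i τ), a (σ ^ (k + 1)),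
    fun τ => ⟨i τ, fun k => σ ^ (k + 1), rfl⟩, fun τ hτ => ?_, ?_⟩
  · have h0 : i τ ≠ 0 := by
      intro h
      apply hτ
      rw [← (hi τ).2, h, pow_zero]
    obtain ⟨k, hk⟩ := Nat.exists_eq_succ_of_ne_zero h0
    have h1 : i (σ⁻¹ * τ) = k := by
      refine hi' _ k ?_ ?_
      · have := (hi τ).1
        omega
      · rw [← (hi τ).2, hk, pow_succ', inv_mul_cancel_left]
    show -∑ k ∈ Finset.range (i τ), a (σ ^ (k + 1)) -
      -∑ k ∈ Finset.range (i (σ⁻¹ * τ)), a (σ ^ (k + 1)) = -a τ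
    rw [h1, hk, Finset.sum_range_succ]
    have h2 : σ ^ (k + 1) = τ := by
      have := (hi τ).2
      rwa [hk] at this
    rw [h2]
    ring
  · have h1 : i 1 = 0 := hi' 1 0 hn0 (pow_zero σ)
    obtain ⟨m, hm⟩ := Nat.exists_eq_succ_of_ne_zero hn0.ne'
    have hpn : σ ^ (m + 1) = 1 := by
      have := pow_orderOf_eq_one σ
      rwa [hn, hm] at this
    have h2 : i (σ⁻¹ * 1) = m := by
      refine hi' _ m (by omega) ?_
      rw [mul_one, eq_inv_iff_mul_eq_one, ← pow_succ, hpn]
    show -∑ k ∈ Finset.range (i 1), a (σ ^ (k + 1)) -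
      -∑ k ∈ Finset.range (i (σ⁻¹ * 1)), a (σ ^ (k + 1)) = (∑ τ, a τ) - a 1
    rw [h1, h2, ← sum_pow hσ hn a, hm, Finset.sum_range_succ', pow_zero]
    simp

end

theorem pf_VCT (h_LAM : T_LAM) (h_VSG : T_VSG) (h_NMN : T_NMN) : T_VCT := by
  classical
  intro F E _ _ _ _ _ _ P σ hσ
  obtain ⟨hadd, hneg, hzero, hmono, hgal, ⟨c, hc0, hmul⟩, ⟨t, ht⟩, -⟩ := h_LAM F E P
  obtain ⟨j₁, hV⟩ := h_VSG F E P
  obtain ⟨hσn, hit, -, -⟩ := h_NMN F E σ hσ
  set n := Module.finrank F E with hn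
  have hn0 : 0 < n := Module.finrank_pos
  have hord : orderOf σ = n := by
    rw [orderOf_eq_card_of_forall_mem_zpowers hσ, IsGalois.card_aut_eq_finrank]
  have hsub : ∀ (j : ℤ) (x y : E), InL P j x → InL P j y → InL P j (x - y) := by
    intro j x y hx hy
    rw [sub_eq_add_neg]
    exact hadd j x (-y) hx (hneg j y hy)
  have hsum : ∀ (j : ℤ) (f : ℕ → E) (r : ℕ), (∀ i, InL P j (f i)) →
      InL P j (∑ i ∈ Finset.range r, f i) := by
    intro j f r hf
    induction r with
    | zero => simpa using hzero j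
    | succ r ih => rw [Finset.sum_range_succ]; exact hadd j _ _ ih (hf r)
  -- multiplication by elements of `V`
  have hM : ∀ (k j : ℤ) (w z : E), c ≤ j → InL P k w → InL P j (z - 1) → InL P k (w * z) := by
    intro k j w z hj hw hz
    have h1 : w * z = w + w * (z - 1) := by ring
    rw [h1]
    exact hadd k _ _ hw (hmono _ _ _ (by omega) (hmul k j w (z - 1) hw hz))
  have hM' : ∀ (j : ℤ) (w z : E), c + 1 ≤ j → InL P j w → InL P j z → InL P (j + 1) (w * z) := by
    intro j w z hj hw hz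
    exact hmono _ _ _ (by omega) (hmul j j w z hw hz)
  set J := max j₁ (max (c + 1) (1 - t)) with hJ
  have hJ1 : ∀ j, J ≤ j → j₁ ≤ j := fun j hj => (le_max_left _ _).trans hj
  have hJ2 : ∀ j, J ≤ j → c + 1 ≤ j := fun j hj =>
    ((le_max_left _ _).trans (le_max_right _ _)).trans hj
  have hJ3 : ∀ j, J ≤ j → 1 - t ≤ j := fun j hj =>
    ((le_max_right _ _).trans (le_max_right _ _)).trans hj
  have hVi : ∀ j, J ≤ j → ∀ x : Eˣ, InL P j ((x : E) - 1) → InL P j ((x⁻¹ : Eˣ) - 1 : E) := by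
    intro j hj x hx
    exact (hV j (hJ1 j hj) x⁻¹).1 (inv_mem ((hV j (hJ1 j hj) x).2 hx))
  -- the units `1 + y'`
  have hunit : ∀ j, J ≤ j → ∀ y' : E, InL P j y' → ∃ y : Eˣ, (y : E) = 1 + y' := by
    intro j hj y' hy'
    have h1 : (1 : E) + y' ≠ 0 := by
      intro h
      have h2 : InL P j (algebraMap F E 1) := by
        rw [map_one]
        have h3 : (1 : E) = -y' := by linear_combination h
        rw [h3]
        exact hneg j y' hy'
      rw [ht j 1, map_one, ← WithZero.exp_zero, WithZero.exp_le_exp] at h2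
      have := hJ3 j hj
      omega
    exact ⟨Units.mk0 _ h1, rfl⟩
  -- the product
  have hprod : ∀ j, J ≤ j → ∀ x : E, InL P j x → ∀ r : ℕ,
      InL P (j + 1) (∏ i ∈ Finset.range r, (1 + (σ ^ i) x) - 1 -
        ∑ i ∈ Finset.range r, (σ ^ i) x) := by
    intro j hj x hx r
    induction r with
    | zero => simpa using hzero (j + 1)
    | succ r ih =>
      have h1 : ∏ i ∈ Finset.range (r + 1), (1 + (σ ^ i) x) - 1 -
          ∑ i ∈ Finset.range (r + 1), (σ ^ i) x =
          (∏ i ∈ Finset.range r, (1 + (σ ^ i) x) - 1 - ∑ i ∈ Finset.range r, (σ ^ i) x) +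
          (∏ i ∈ Finset.range r, (1 + (σ ^ i) x) - 1) * (σ ^ r) x := by
        rw [Finset.prod_range_succ, Finset.sum_range_succ]
        ring
      rw [h1]
      refine hadd _ _ _ ih (hM' j _ _ (hJ2 j hj) ?_ (hgal j _ x hx))
      have h2 : ∏ i ∈ Finset.range r, (1 + (σ ^ i) x) - 1 =
          (∏ i ∈ Finset.range r, (1 + (σ ^ i) x) - 1 - ∑ i ∈ Finset.range r, (σ ^ i) x) +
          ∑ i ∈ Finset.range r, (σ ^ i) x := by ring
      rw [h2]
      exact hadd _ _ _ (hmono _ _ _ (by omega) ih) (hsum j _ r fun i => hgal j _ x hx)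
  have hnm : ∀ j, J ≤ j → ∀ u : Eˣ, InL P j ((u : E) - 1) →
      InL P (j + 1) (((nm (us σ) n u : Eˣ) : E) - 1 -
        ∑ i ∈ Finset.range n, (σ ^ i) ((u : E) - 1)) := by
    intro j hj u hu
    rw [nm_coe]
    have h1 : ∀ i ∈ Finset.range n, (σ ^ i) (u : E) = 1 + (σ ^ i) ((u : E) - 1) := by
      intro i _
      rw [map_sub, map_one]
      ring
    rw [Finset.prod_congr rfl h1]
    exact hprod j hj _ hu n
  -- coordinates of the trace
  have htr : ∀ (x : E) (ρ : E ≃ₐ[F] E),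
      (IsGalois.normalBasis F E).repr (∑ i ∈ Finset.range n, (σ ^ i) x) ρ =
        ∑ τ, (IsGalois.normalBasis F E).repr x τ := by
    intro x ρ
    rw [map_sum, Finsupp.finsetSum_apply]
    rw [Finset.sum_congr rfl fun i _ => repr_gal (σ ^ i) x ρ]
    rw [sum_pow hσ hord (fun g => (IsGalois.normalBasis F E).repr x (g⁻¹ * ρ))]
    exact Fintype.sum_equiv ((Equiv.inv _).trans (Equiv.mulRight ρ)) _ _ (fun τ => rfl)
  -- graded step (a)
  have gradA : ∀ j, J ≤ j → ∀ u : Eˣ, InL P j ((u : E) - 1) →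
      InL P (j + 1) (((nm (us σ) n u : Eˣ) : E) - 1) →
      ∃ y : Eˣ, InL P j ((y : E) - 1) ∧ InL P (j + 1) (((u * (y / us σ y) : Eˣ) : E) - 1) := by
    intro j hj u hu hnu
    set x : E := (u : E) - 1 with hx
    have h1 : InL P (j + 1) (∑ i ∈ Finset.range n, (σ ^ i) x) := by
      have h2 := hsub _ _ _ hnu (hnm j hj u hu)
      have h3 : ((nm (us σ) n u : Eˣ) : E) - 1 - (((nm (us σ) n u : Eˣ) : E) - 1 -
          ∑ i ∈ Finset.range n, (σ ^ i) x) = ∑ i ∈ Finset.range n, (σ ^ i) x := by ring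
      rwa [h3] at h2
    have hA : P.valuation F (∑ τ, (IsGalois.normalBasis F E).repr x τ) ≤
        WithZero.exp (-(j + 1)) := by
      have h2 := h1 1
      rwa [htr] at h2
    obtain ⟨b, hb1, hb2, hb3⟩ := diff_eq hσ hord hn0
      (fun τ => (IsGalois.normalBasis F E).repr x τ)
    set y' : E := ∑ τ, b τ • IsGalois.normalBasis F E τ with hy'
    have hry : ∀ τ, (IsGalois.normalBasis F E).repr y' τ = b τ := fun τ =>
      congrFun ((IsGalois.normalBasis F E).repr_sum_self b) τ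
    have hyj : InL P j y' := by
      intro τ
      obtain ⟨m, l, h2⟩ := hb1 τ
      rw [hry, h2, Valuation.map_neg]
      exact Valuation.map_sum_le _ fun k _ => hu (l k)
    obtain ⟨y, hy⟩ := hunit j hj y' hyj
    have hy1 : InL P j ((y : E) - 1) := by
      rw [hy, add_sub_cancel_left]
      exact hyj
    refine ⟨y, hy1, ?_⟩
    have hD : InL P (j + 1) (x + y' - σ y') := by
      intro τ
      rw [map_sub, map_add, Finsupp.sub_apply, Finsupp.add_apply, hry, repr_gal, hry]
      by_cases hτ : τ = 1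
      · rw [hτ]
        have h2 : (IsGalois.normalBasis F E).repr x 1 + b 1 - b (σ⁻¹ * 1) =
            ∑ τ, (IsGalois.normalBasis F E).repr x τ := by linear_combination hb3
        rw [h2]
        exact hA
      · have h2 : (IsGalois.normalBasis F E).repr x τ + b τ - b (σ⁻¹ * τ) = 0 := by
          linear_combination hb2 τ hτ
        rw [h2, map_zero]
        exact zero_le
    have hw : InL P (j + 1) ((u : E) * y - σ y) := by
      have h2 : (u : E) * y - σ y = (x + y' - σ y') + x * y' := by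
        rw [hy, map_add, map_one, hx]
        ring
      rw [h2]
      exact hadd _ _ _ hD (hM' j _ _ (hJ2 j hj) hu hyj)
    have hs : InL P j (((us σ y : Eˣ) : E) - 1) := by
      have h2 : ((us σ y : Eˣ) : E) - 1 = σ ((y : E) - 1) := by
        rw [map_sub, map_one]
        rfl
      rw [h2]
      exact hgal j σ _ hy1
    have h3 := hM (j + 1) j _ _ (by have := hJ2 j hj; omega) hw (hVi j hj _ hs)
    have h4 : ((u * (y / us σ y) : Eˣ) : E) - 1 =
        ((u : E) * y - σ y) * (((us σ y)⁻¹ : Eˣ) : E) := by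
      have h5 : (σ (y : E)) * (((us σ y)⁻¹ : Eˣ) : E) = 1 := (us σ y).mul_inv
      rw [sub_mul, h5, div_eq_mul_inv]
      push_cast
      ring
    rw [h4]
    exact h3
  -- graded step (b)
  have gradB : ∀ j, J ≤ j → ∀ u : Eˣ, InL P j ((u : E) - 1) →
      InL P (j + 1) (((us σ u / u : Eˣ) : E) - 1) →
      ∃ y : Eˣ, InL P j ((y : E) - 1) ∧ InL P (j + 1) (((u / nm (us σ) n y : Eˣ) : E) - 1) := by
    intro j hj u hu hnu
    set x : E := (u : E) - 1 with hx
    have h1 : InL P (j + 1) (σ x - x) := by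
      have h2 := hM (j + 1) j _ _ (by have := hJ2 j hj; omega) hnu hu
      have h3 : (((us σ u / u : Eˣ) : E) - 1) * (u : E) = σ x - x := by
        have h5 : ((us σ u / u : Eˣ) : E) * (u : E) = σ (u : E) := by
          rw [← Units.val_mul, div_mul_cancel]
          rfl
        rw [sub_mul, h5, hx, map_sub, map_one]
        ring
      rwa [h3] at h2
    set a : (E ≃ₐ[F] E) → F := fun τ => (IsGalois.normalBasis F E).repr x τ with ha
    have h2 : ∀ i : ℕ, P.valuation F (a (σ ^ i) - a 1) ≤ WithZero.exp (-(j + 1)) := by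
      intro i
      induction i with
      | zero =>
        rw [pow_zero, sub_self, map_zero]
        exact zero_le
      | succ i ih =>
        have h3 : a (σ ^ (i + 1)) - a 1 =
            (a (σ ^ i) - a 1) - (a (σ ^ i) - a (σ ^ (i + 1))) := by ring
        rw [h3]
        refine (Valuation.map_sub _ _ _).trans (max_le ih ?_)
        have h4 := h1 (σ ^ (i + 1))
        rw [map_sub, Finsupp.sub_apply, repr_gal, pow_succ', inv_mul_cancel_left] at h4
        rw [pow_succ']
        exact h4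
    have h3 : ∀ τ, P.valuation F (a τ - a 1) ≤ WithZero.exp (-(j + 1)) := by
      intro τ
      obtain ⟨i, hi, -⟩ := idx hσ hord
      rw [← (hi τ).2]
      exact h2 _
    set y' : E := a 1 • IsGalois.normalBasis F E 1 with hy'
    have hry : ∀ τ, (IsGalois.normalBasis F E).repr y' τ = if 1 = τ then a 1 else 0 := by
      intro τ
      rw [hy', map_smul, Module.Basis.repr_self, Finsupp.smul_single, smul_eq_mul, mul_one,
        Finsupp.single_apply]
    have hyj : InL P j y' := by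
      intro τ
      rw [hry]
      split_ifs
      · exact hu 1
      · rw [map_zero]
        exact zero_le
    obtain ⟨y, hy⟩ := hunit j hj y' hyj
    have hy0 : (y : E) - 1 = y' := by rw [hy, add_sub_cancel_left]
    have hy1 : InL P j ((y : E) - 1) := by rw [hy0]; exact hyj
    refine ⟨y, hy1, ?_⟩
    have h4 : InL P (j + 1) (x - ∑ i ∈ Finset.range n, (σ ^ i) y') := by
      intro τ
      rw [map_sub, Finsupp.sub_apply, htr]
      have h5 : ∑ τ, (IsGalois.normalBasis F E).repr y' τ = a 1 := by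
        rw [Finset.sum_congr rfl fun τ _ => hry τ]
        simp
      rw [h5]
      exact h3 τ
    have h5 := hnm j hj y hy1
    rw [hy0] at h5
    have h6 : InL P (j + 1) ((u : E) - ((nm (us σ) n y : Eˣ) : E)) := by
      have h7 : (u : E) - ((nm (us σ) n y : Eˣ) : E) =
          (x - ∑ i ∈ Finset.range n, (σ ^ i) y') - (((nm (us σ) n y : Eˣ) : E) - 1 -
            ∑ i ∈ Finset.range n, (σ ^ i) y') := by
        rw [hx]
        ring
      rw [h7]
      exact hsub _ _ _ h4 h5
    have h7 : InL P j (((nm (us σ) n y : Eˣ) : E) - 1) := by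
      have h8 : ((nm (us σ) n y : Eˣ) : E) - 1 = (((nm (us σ) n y : Eˣ) : E) - 1 -
            ∑ i ∈ Finset.range n, (σ ^ i) y') + ∑ i ∈ Finset.range n, (σ ^ i) y' := by ring
      rw [h8]
      exact hadd _ _ _ (hmono _ _ _ (by omega) h5) (hsum j _ n fun i => hgal j _ _ hyj)
    have h8 := hM (j + 1) j _ _ (by have := hJ2 j hj; omega) h6 (hVi j hj _ h7)
    have h9 : ((u / nm (us σ) n y : Eˣ) : E) - 1 =
        ((u : E) - ((nm (us σ) n y : Eˣ) : E)) * (((nm (us σ) n y)⁻¹ : Eˣ) : E) := by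
      have h10 : ((nm (us σ) n y : Eˣ) : E) * (((nm (us σ) n y)⁻¹ : Eˣ) : E) = 1 :=
        (nm (us σ) n y).mul_inv
      rw [sub_mul, h10, div_eq_mul_inv]
      push_cast
      ring
    rw [h9]
    exact h8
  -- the norm is invariant
  have hinv : ∀ y : Eˣ, us σ (nm (us σ) n y) = nm (us σ) n y := by
    intro y
    show us σ (∏ i ∈ Finset.range n, (us σ)^[i] y) = ∏ i ∈ Finset.range n, (us σ)^[i] y
    rw [map_prod]
    obtain ⟨m, hm⟩ := Nat.exists_eq_succ_of_ne_zero hn0.ne'
    have h1 : ∀ i ∈ Finset.range n, us σ ((us σ)^[i] y) = (us σ)^[i + 1] y := by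
      intro i _
      rw [Function.iterate_succ_apply']
    rw [Finset.prod_congr rfl h1]
    have h2 := hit y
    rw [hm] at h2 ⊢
    rw [Finset.prod_range_succ, Finset.prod_range_succ', h2]
    rfl
  have hinv' : ∀ y : Eˣ, nm (us σ) n (y / us σ y) = 1 := by
    intro y
    have h1 : nm (us σ) n (us σ y) = us σ (nm (us σ) n y) := by
      show ∏ i ∈ Finset.range n, (us σ)^[i] (us σ y) =
        us σ (∏ i ∈ Finset.range n, (us σ)^[i] y)
      rw [map_prod]
      refine Finset.prod_congr rfl fun i _ => ?_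
      rw [← Function.iterate_succ_apply, Function.iterate_succ_apply']
    rw [map_div, h1, hinv, div_self']
  have hVV : ∀ j, J ≤ j → ∀ x : Eˣ, (x ∈ VV E P j ↔ InL P j ((x : E) - 1)) :=
    fun j hj => hV j (hJ1 j hj)
  have hVm : ∀ i j, J ≤ i → i ≤ j → ∀ x, x ∈ VV E P j → x ∈ VV E P i := by
    intro i j hi hij x hx
    rw [hVV j (hi.trans hij)] at hx
    rw [hVV i hi]
    exact hmono _ _ _ hij hx
  refine ⟨J, fun j k hj hjk => ?_⟩
  obtain ⟨m, rfl⟩ := Int.le.dest hjk
  clear hjk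
  induction m with
  | zero =>
    refine ⟨fun x hx _ => ⟨1, one_mem _, ?_⟩, fun x hx _ => ⟨1, one_mem _, ?_⟩⟩
    · simpa using hx
    · simpa using hx
  | succ m ih =>
    have hk : J ≤ j + (m : ℤ) := by omega
    have hk1 : j + ((m + 1 : ℕ) : ℤ) = j + (m : ℤ) + 1 := by push_cast; ring
    rw [hk1]
    obtain ⟨ih1, ih2⟩ := ih
    constructor
    · intro x hx hnx
      obtain ⟨y, hy, hu⟩ := ih1 x hx (hVm _ _ hk (by omega) _ hnx)
      have h1 : nm (us σ) n (x * (y / us σ y)) = nm (us σ) n x := by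
        rw [map_mul, hinv', mul_one]
      obtain ⟨z, hz, hz2⟩ := gradA _ hk (x * (y / us σ y)) ((hVV _ hk _).1 hu) (by
        rw [h1]
        exact (hVV _ (by omega) _).1 hnx)
      refine ⟨y * z, mul_mem hy (hVm _ _ hj (by omega) _ ((hVV _ hk _).2 hz)), ?_⟩
      rw [hVV _ (by omega)]
      have h2 : x * (y * z / us σ (y * z)) = x * (y / us σ y) * (z / us σ z) := by
        rw [map_mul, mul_div_mul_comm, mul_assoc]
      rw [h2]
      exact hz2
    · intro x hx hnx
      obtain ⟨y, hy, hu⟩ := ih2 x hx (hVm _ _ hk (by omega) _ hnx)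
      have h1 : us σ (x / nm (us σ) n y) / (x / nm (us σ) n y) = us σ x / x := by
        rw [map_div, hinv, div_div_div_cancel_right]
      obtain ⟨z, hz, hz2⟩ := gradB _ hk (x / nm (us σ) n y) ((hVV _ hk _).1 hu) (by
        rw [h1]
        exact (hVV _ (by omega) _).1 hnx)
      refine ⟨y * z, mul_mem hy (hVm _ _ hj (by omega) _ ((hVV _ hk _).2 hz)), ?_⟩
      rw [hVV _ (by omega)]
      have h2 : x / nm (us σ) n (y * z) = x / nm (us σ) n y / nm (us σ) n z := by
        rw [map_mul, div_div]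
      rw [h2]
      exact hz2

end Pool.Agent.H50.RQ
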